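import Pool.Agent.H24.FD.P4

/-!
# MP_1f2761, k = 2, row LCE: cells with large `Lo` or `Di`
-/

set_option autoImplicit false

open Finset Pool.K2 Pool.FD MeasureTheory

namespace Pool.Agent.H24.FD

namespace LCE34

theorem pF_nonneg (ε : ℝ) {l : ℕ} (s : Fin l → Fin 3) : 0 ≤ pF ε s := by
  unfold pF
  split_ifs <;> positivity

theorem PF_nonneg (ε : ℝ) {l k : ℕ} (S : Fin k → Fin l → Fin 3) : 0 ≤ PF ε S :=
  Finset.prod_nonneg fun _ _ => pF_nonneg ε _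

theorem kc_nonneg (l k e x : ℕ) : 0 ≤ kc l k e x := by
  unfold kc
  refine mul_nonneg (by positivity) (Finset.sum_nonneg fun S _ => ?_)
  split_ifs
  · exact PF_nonneg _ _
  · exact le_refl _

theorem kc_sum (hP : PFMStmt) (hV : VALSStmt) {l : ℕ} (hM : Marg eb l) (k : ℕ) {e : ℕ}
    (he : e < 2 ^ (l * k)) : ∑ x ∈ range (2 ^ (l * k)), kc l k e x = 1 := by
  classical
  unfold kc
  rw [← Finset.mul_sum, Finset.sum_comm]
  have h1 := hP eb l hM k e he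
  have h2 : ∑ S : Fin k → Fin l → Fin 3, ∑ x ∈ range (2 ^ (l * k)),
      (if VN S = e ∧ VA S = x then PF eb S else 0) = 1 / 2 ^ (l * k) := by
    rw [← h1]
    refine Finset.sum_congr rfl fun S _ => ?_
    obtain ⟨-, h3, -⟩ := hV l k S
    rw [Finset.sum_eq_single_of_mem (VA S) (mem_range.2 h3)]
    · by_cases h4 : VN S = e
      · rw [if_pos ⟨h4, rfl⟩, if_pos h4]
      · rw [if_neg (fun h5 => h4 h5.1), if_neg h4]
    · intro x _ hne
      rw [if_neg]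
      rintro ⟨-, h5⟩
      exact hne h5.symm
  have h3 : ∑ S : Fin k → Fin l → Fin 3, ∑ x ∈ range (2 ^ (l * k)),
      (if VN S = e ∧ VA S = x then PF eb S else 0) = (1 : ℝ) / 2 ^ (l * k) := h2
  calc (2 : ℝ) ^ (l * k) * ∑ S : Fin k → Fin l → Fin 3, ∑ x ∈ range (2 ^ (l * k)),
      (if VN S = e ∧ VA S = x then PF eb S else 0) = 2 ^ (l * k) * (1 / 2 ^ (l * k)) := by rw [h3]
    _ = 1 := by field_simp

theorem ix_lt {K : ℕ} (hK : 0 < K) (x : ℝ) : ix K x < K := by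
  unfold ix fl
  have h1 : (0 : ℤ) < K := by exact_mod_cast hK
  have h2 := Int.emod_lt_of_pos ⌊(K : ℝ) * x⌋ h1
  have h3 := Int.emod_nonneg ⌊(K : ℝ) * x⌋ h1.ne'
  omega

end LCE34

open LCE34 Classical in
/-- **LCE**. -/
theorem lce (hB : F1BStmt) (hD : F1DStmt) (hK : KERStmt) (hP : PFMStmt) (hV : VALSStmt) :
    LCEStmt := by
  intro q m g t₁ l k J wm del hpar hl3 hJ hdel hgood
  set t := tt q (l * k) J with ht
  set T : ℕ := q ^ t with hT
  have hq0 : 0 < q := by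
    have := hpar.hq
    omega
  have hT0 : 0 < T := pow_pos hq0 _
  have hKt0 : 0 < T * 2 ^ l := Nat.mul_pos hT0 (by positivity)
  obtain ⟨hK1, hK2, -⟩ := hK q m g t₁ t kk wm hpar.hq hpar.hm hpar.hg (hpar.ht J hJ)
    (by unfold kk; norm_num) hpar.hmk
  set om : ℕ → ℕ → ℝ := omv q m g t₁ wm t with hom
  have hom0 : ∀ a b, 0 ≤ om a b := fun a b => hK1 (a, b)
  have homs : ∀ V < T, ∑ a ∈ range T, om V a = T := by
    intro V _
    have h1 := hK2 V
    have h2 : ((T : ℕ) : ℝ) = (q : ℝ) ^ t := by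
      rw [hT]
      push_cast
      rfl
    rw [h2]
    exact h1
  have hH : HH l k ⊆ range (2 ^ (l * k)) := Finset.filter_subset _ _
  have hks : ∀ e ∈ HH l k, ∑ x ∈ range (2 ^ (l * k)), kc l k e x = 1 := fun e he =>
    kc_sum hP hV hpar.marg k (mem_range.1 (hH he))
  set y := yy q (J - l * k) with hy
  set F : ℝ := (∑ e ∈ HH l k, F1f l (l * k) (kc l k e) T om y) / 2 ^ (l * k) with hF
  have hFle : F ≤ (q : ℝ) ^ (-(3 / 10 * t₁ : ℝ)) := hgood
  set R : ℝ := (q : ℝ) ^ (-(15 / 100 * t₁ : ℝ)) with hR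
  have hq1 : (1 : ℝ) ≤ q := by exact_mod_cast hq0
  have hR0 : 0 < R := Real.rpow_pos_of_pos (by linarith) _
  have hR1 : R ≤ 1 := by
    refine Real.rpow_le_one_of_one_le_of_nonpos hq1 ?_
    have : (0 : ℝ) ≤ 15 / 100 * t₁ := by positivity
    linarith
  have hRR : (q : ℝ) ^ (-(3 / 10 * t₁ : ℝ)) = R * R := by
    rw [hR, ← Real.rpow_add (by linarith)]
    congr 1
    ring
  have hF1 : F ≤ R * R := by
    rw [← hRR]
    exact hFle
  have hF2 : Real.sqrt F ≤ R := by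
    rw [← Real.sqrt_mul_self hR0.le]
    exact Real.sqrt_le_sqrt hF1
  have hF3 : F ≤ R := hF1.trans (by nlinarith)
  set Kt : ℕ := T * 2 ^ l with hKt
  set B₁ : Finset (ℕ × ℕ) := (range Kt ×ˢ range Kt).filter fun s => ∃ x1 x2 : ℝ,
    ix Kt x1 = s.1 ∧ ix Kt x2 = s.2 ∧ del < Lo q m g t₁ l k wm J x1 x2 with hB₁
  set B₂ : Finset (ℕ × ℕ) := (range Kt ×ˢ range Kt).filter fun s => ∃ x1 x2 : ℝ,
    ix Kt x1 = s.1 ∧ ix Kt x2 = s.2 ∧ del < Di q m g t₁ l k wm J x1 x2 with hB₂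
  have h1 : (B₁.card : ℝ) * del ≤ ((T : ℝ) * 2 ^ l) ^ 2 * (2 / 2 ^ l + 16 * F) := by
    refine hB l (l * k) T om (HH l k) (kc l k) y del hT0 hl3 hdel hH hom0 homs
      (fun e x => kc_nonneg l k e x) hks B₁ (Finset.filter_subset _ _) ?_
    intro s hs
    exact (Finset.mem_filter.1 hs).2
  have h2 : (B₂.card : ℝ) * del ≤ ((T : ℝ) * 2 ^ l) ^ 2 * (30 / 2 ^ l + 2 * Real.sqrt F) := by
    refine hD l (l * k) T om (HH l k) (kc l k) y del hT0 hl3 hdel hH hom0 homs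
      (fun e x => kc_nonneg l k e x) hks B₂ (Finset.filter_subset _ _) ?_
    intro s hs
    exact (Finset.mem_filter.1 hs).2
  refine ⟨B₁ ∪ B₂, Finset.union_subset (Finset.filter_subset _ _) (Finset.filter_subset _ _),
    ?_, ?_⟩
  · have hc : ((B₁ ∪ B₂).card : ℝ) ≤ B₁.card + B₂.card := by
      exact_mod_cast Finset.card_union_le B₁ B₂
    have hKc : ((Kt : ℕ) : ℝ) = (T : ℝ) * 2 ^ l := by
      rw [hKt]
      push_cast
      rfl
    have hKpos : (0 : ℝ) < ((Kt : ℕ) : ℝ) ^ 2 := by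
      have : (0 : ℝ) < ((Kt : ℕ) : ℝ) := by exact_mod_cast hKt0
      positivity
    rw [le_div_iff₀ hdel, div_mul_eq_mul_div, div_le_iff₀ hKpos]
    rw [← hKc] at h1 h2
    have h3 : ((B₁ ∪ B₂).card : ℝ) * del ≤ (B₁.card + B₂.card) * del :=
      mul_le_mul_of_nonneg_right hc hdel.le
    have h4 : ((Kt : ℕ) : ℝ) ^ 2 * (2 / 2 ^ l + 16 * F) +
        ((Kt : ℕ) : ℝ) ^ 2 * (30 / 2 ^ l + 2 * Real.sqrt F) ≤
        (32 / 2 ^ l + 18 * R) * ((Kt : ℕ) : ℝ) ^ 2 := by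
      rw [← mul_add, mul_comm]
      refine mul_le_mul_of_nonneg_right ?_ hKpos.le
      have e1 : (2 : ℝ) / 2 ^ l + 30 / 2 ^ l = 32 / 2 ^ l := by
        rw [← add_div]
        norm_num
      linarith
    linarith
  · intro s₁ s₂ hs
    rw [Finset.mem_union, not_or] at hs
    have hm : (ix Kt s₁, ix Kt s₂) ∈ range Kt ×ˢ range Kt :=
      Finset.mem_product.2 ⟨mem_range.2 (ix_lt hKt0 _), mem_range.2 (ix_lt hKt0 _)⟩
    constructor
    · by_contra hcon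
      push Not at hcon
      exact hs.1 (Finset.mem_filter.2 ⟨hm, s₁, s₂, rfl, rfl, hcon⟩)
    · by_contra hcon
      push Not at hcon
      exact hs.2 (Finset.mem_filter.2 ⟨hm, s₁, s₂, rfl, rfl, hcon⟩)

end Pool.Agent.H24.FD
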