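import Mathlib
import Pool.Agent.H24.FD.P5

/-!
# MP_1f2761, row LIM: small quantities
-/

set_option autoImplicit false

open Finset Pool.K2 Pool.FD MeasureTheory Filter Topology

namespace Pool.Agent.H24.FD

namespace LimH34

theorem ev (C : ℝ) (n : ℕ) (c η : ℝ) (hc : 0 < c) (hη : 0 < η) :
    ∀ᶠ l : ℕ in atTop, C * (l : ℝ) ^ n * Real.exp (-(c * l)) ≤ η := by
  have h1 : Tendsto (fun x : ℝ => x ^ n * Real.exp (-x)) atTop (𝓝 0) :=
    Real.tendsto_pow_mul_exp_neg_atTop_nhds_zero n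
  have h2 : Tendsto (fun l : ℕ => c * (l : ℝ)) atTop atTop :=
    Tendsto.const_mul_atTop hc tendsto_natCast_atTop_atTop
  have h3 := (h1.comp h2).const_mul (C / c ^ n)
  rw [mul_zero] at h3
  have h4 : ∀ᶠ l : ℕ in atTop,
      C / c ^ n * ((fun x : ℝ => x ^ n * Real.exp (-x)) ∘ fun l : ℕ => c * (l : ℝ)) l < η :=
    h3.eventually (gt_mem_nhds hη)
  filter_upwards [h4] with l hl
  have hcn : c ^ n ≠ 0 := pow_ne_zero _ hc.ne'
  have e : C / c ^ n * ((fun x : ℝ => x ^ n * Real.exp (-x)) ∘ fun l : ℕ => c * (l : ℝ)) l =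
      C * (l : ℝ) ^ n * Real.exp (-(c * l)) := by
    simp only [Function.comp]
    rw [mul_pow]
    field_simp
  rw [e] at hl
  exact hl.le

theorem two_exp (l : ℕ) : 1 / (2 : ℝ) ^ l ≤ Real.exp (-(1 / 2 * (l : ℝ))) := by
  rw [Real.exp_neg, one_div]
  apply inv_anti₀ (Real.exp_pos _)
  have h : (2 : ℝ) ^ l = Real.exp (Real.log 2 * l) := by
    rw [mul_comm, Real.exp_nat_mul, Real.exp_log (by norm_num)]
  rw [h]
  apply Real.exp_le_exp.mpr
  have h2 := Real.log_two_gt_d9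
  have hl : (0 : ℝ) ≤ l := Nat.cast_nonneg l
  nlinarith

theorem q_exp (q : ℕ) (hq : q = 3 ∨ q = 5) (a : ℝ) (ha : 0 ≤ a) :
    (q : ℝ) ^ (-a) ≤ Real.exp (-a) := by
  have hq3 : (3 : ℝ) ≤ q := by rcases hq with rfl | rfl <;> norm_num
  have h0 : (0 : ℝ) < q := by linarith
  rw [Real.rpow_def_of_pos h0]
  apply Real.exp_le_exp.mpr
  have h1 : 1 ≤ Real.log q := by
    rw [Real.le_log_iff_exp_le h0]
    have := Real.exp_one_lt_d9
    linarith
  nlinarith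

theorem t1_ge (θ : ℝ) (l : ℕ) : θ * (l : ℝ) ^ 2 ≤ t1 θ l := by
  unfold t1
  exact Nat.le_ceil _

end LimH34

open LimH34

theorem lim : LIMStmt := by
  intro hA q hq m T θ del d' η hθ hdel hd' hη
  obtain ⟨lA, hlA⟩ := hA eb (by unfold eb; norm_num)
  have hq3 : (3 : ℝ) ≤ q := by rcases hq with rfl | rfl <;> norm_num
  have hq5 : (q : ℝ) ≤ 5 := by rcases hq with rfl | rfl <;> norm_num
  have h0 : (0 : ℝ) < q := by linarith
  set E : ℕ := 3200 + T + 1 with hE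
  -- constants
  set C1' : ℝ := 6618 ^ E * (6 ^ (2 * 1100) * 20 * 100 * (q : ℝ) ^ (m + 3)) with hC1
  have e1 := ev C1' (3 * E) 1 η one_pos hη
  have e2 := ev (32 / del) 0 (1 / 2) (η / 2) (by norm_num) (by linarith)
  have e3 := ev (18 / del) 0 (15 / 100 * θ) (η / 2) (by positivity) (by linarith)
  have e4 := ev ((3200 + T + 1) * 2) 1 (2 * eb ^ 2) η (by unfold eb; norm_num) hη
  have e5 := ev (14 * 9 / d') 1 (1 / 2) (η / 2) (by norm_num) (by linarith)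
  have e6 := ev (36 / d') 0 (1 / 2) (η / 2) (by norm_num) (by linarith)
  have e7 : ∀ᶠ l : ℕ in atTop, 2 / (17 / 1000 * θ) ≤ (l : ℝ) :=
    tendsto_natCast_atTop_atTop.eventually (eventually_ge_atTop _)
  have e8 : ∀ᶠ l : ℕ in atTop, 1 ≤ l := eventually_ge_atTop 1
  have e9 : ∀ᶠ l : ℕ in atTop, lA ≤ l := eventually_ge_atTop lA
  obtain ⟨l₀, hl₀⟩ := eventually_atTop.mp
    ((e1.and e2).and ((e3.and e4).and ((e5.and e6).and ((e7.and e8).and e9))))
  refine ⟨l₀, fun l hl => ?_⟩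
  obtain ⟨⟨f1, f2⟩, ⟨f3, f4⟩, ⟨f5, f6⟩, ⟨f7, f8⟩, f9⟩ := hl₀ l hl
  have hl1 : (1 : ℝ) ≤ l := by exact_mod_cast f8
  have hl0 : (0 : ℝ) ≤ l := by linarith
  have ht := t1_ge θ l
  have hll : (l : ℝ) ≤ (l : ℝ) ^ 2 := by nlinarith
  have h2l := two_exp l
  have hp2 : (0 : ℝ) < 2 ^ l := by positivity
  refine ⟨?_, ?_, ?_, ?_, ?_, ?_⟩
  · -- the first
    have hNI : (2 * (NI l l 1100 : ℝ)) ≤ 6618 * (l : ℝ) ^ 3 := by
      unfold NI
      push_cast
      nlinarith [mul_nonneg hl0 hl0, mul_nonneg (mul_nonneg hl0 hl0) hl0,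
        mul_nonneg (sub_nonneg.mpr hl1) hl0, mul_nonneg (sub_nonneg.mpr hl1) (mul_nonneg hl0 hl0)]
    have hNI0 : (0 : ℝ) ≤ 2 * (NI l l 1100 : ℝ) := by positivity
    have hpow : (2 * (NI l l 1100 : ℝ)) ^ E ≤ 6618 ^ E * (l : ℝ) ^ (3 * E) := by
      calc (2 * (NI l l 1100 : ℝ)) ^ E ≤ (6618 * (l : ℝ) ^ 3) ^ E := pow_le_pow_left₀ hNI0 hNI E
        _ = 6618 ^ E * (l : ℝ) ^ (3 * E) := by rw [mul_pow, ← pow_mul]
    have h2r : (2 : ℝ) ^ (27 / 100 * (l : ℝ)) ≤ Real.exp (27 / 100 * (l : ℝ)) := by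
      rw [Real.rpow_def_of_pos (by norm_num)]
      apply Real.exp_le_exp.mpr
      have := Real.log_two_lt_d9
      nlinarith
    have hqr : (q : ℝ) ^ (-(17 / 1000 * (t1 θ l : ℝ))) ≤ Real.exp (-(2 * (l : ℝ))) := by
      refine le_trans (q_exp q hq _ (by positivity)) (Real.exp_le_exp.mpr ?_)
      have h17 : 2 ≤ (17 / 1000 * θ) * l := by
        rw [div_le_iff₀ (by positivity)] at f7
        linarith
      have : (17 / 1000 * θ) * (l : ℝ) ^ 2 ≤ 17 / 1000 * (t1 θ l : ℝ) := by nlinarith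
      nlinarith
    have hs : s0 q m (t1 θ l) l 1100 ≤
        6 ^ (2 * 1100) * 20 * 100 * (q : ℝ) ^ (m + 3) * Real.exp (-(1 * (l : ℝ))) := by
      unfold s0
      have hk : (0 : ℝ) ≤ 6 ^ (2 * 1100) * 20 * 100 * (q : ℝ) ^ (m + 3) := by positivity
      rw [mul_assoc]
      refine mul_le_mul_of_nonneg_left ?_ hk
      calc (2 : ℝ) ^ (27 / 100 * (l : ℝ)) * (q : ℝ) ^ (-(17 / 1000 * (t1 θ l : ℝ)))
          ≤ Real.exp (27 / 100 * (l : ℝ)) * Real.exp (-(2 * (l : ℝ))) :=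
            mul_le_mul h2r hqr (by positivity) (Real.exp_pos _).le
        _ = Real.exp (27 / 100 * (l : ℝ) + -(2 * (l : ℝ))) := by rw [Real.exp_add]
        _ ≤ Real.exp (-(1 * (l : ℝ))) := Real.exp_le_exp.mpr (by nlinarith)
    have hs0 : 0 ≤ s0 q m (t1 θ l) l 1100 := by unfold s0; positivity
    calc (2 * (NI l l 1100 : ℝ)) ^ E * s0 q m (t1 θ l) l 1100
        ≤ (6618 ^ E * (l : ℝ) ^ (3 * E)) *
          (6 ^ (2 * 1100) * 20 * 100 * (q : ℝ) ^ (m + 3) * Real.exp (-(1 * (l : ℝ)))) :=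
          mul_le_mul hpow hs hs0 (by positivity)
      _ = C1' * (l : ℝ) ^ (3 * E) * Real.exp (-(1 * (l : ℝ))) := by
          rw [hC1]; ring
      _ ≤ η := f1
  · unfold rhoL
    positivity
  · unfold rhoL
    have hqr : (q : ℝ) ^ (-(15 / 100 * (t1 θ l : ℝ))) ≤ Real.exp (-(15 / 100 * θ * (l : ℝ))) := by
      refine le_trans (q_exp q hq _ (by positivity)) (Real.exp_le_exp.mpr ?_)
      have : (15 / 100 * θ) * (l : ℝ) ≤ 15 / 100 * (t1 θ l : ℝ) := by nlinarith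
      linarith
    rw [pow_zero, mul_one] at f2 f3
    calc (32 / 2 ^ l + 18 * (q : ℝ) ^ (-(15 / 100 * (t1 θ l : ℝ)))) / del
        = 32 / del * (1 / 2 ^ l) + 18 / del * (q : ℝ) ^ (-(15 / 100 * (t1 θ l : ℝ))) := by
          field_simp
      _ ≤ 32 / del * Real.exp (-(1 / 2 * (l : ℝ))) +
          18 / del * Real.exp (-(15 / 100 * θ * (l : ℝ))) := by gcongr
      _ ≤ η := by linarith
  · exact (hlA l f9).1
  · have h := (hlA l f9).2
    have hT : (0 : ℝ) ≤ 3200 + T + 1 := by positivity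
    rw [pow_one] at f4
    calc (3200 + (T : ℝ) + 1) * ((l : ℝ) * atyp eb l)
        ≤ (3200 + (T : ℝ) + 1) * ((l : ℝ) * (2 * Real.exp (-(2 * eb ^ 2 * l)))) := by gcongr
      _ = (3200 + (T : ℝ) + 1) * 2 * (l : ℝ) * Real.exp (-(2 * eb ^ 2 * l)) := by ring
      _ ≤ η := f4
  · intro d hd
    have hql : (1 : ℝ) ≤ (q : ℝ) ^ l := one_le_pow₀ (by linarith)
    have hlog0 : 0 ≤ Real.log ((q : ℝ) ^ l) := Real.log_nonneg hql
    have hlog : Real.log ((q : ℝ) ^ l) ≤ 4 * l := by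
      rw [Real.log_pow]
      have : Real.log q ≤ 4 := by
        have := Real.log_le_sub_one_of_pos h0
        linarith
      nlinarith
    have hq2 : (2 : ℝ) ^ l ≤ (q : ℝ) ^ l := pow_le_pow_left₀ (by norm_num) (by linarith) l
    refine ⟨by unfold rhoG; positivity, ?_⟩
    unfold rhoG
    rw [pow_one] at f5
    rw [pow_zero, mul_one] at f6
    have g1 : 14 * (Real.log ((q : ℝ) ^ l) + 5) / ((q : ℝ) ^ l * d') ≤ η / 2 := by
      calc 14 * (Real.log ((q : ℝ) ^ l) + 5) / ((q : ℝ) ^ l * d')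
          ≤ 14 * (9 * l) / ((2 : ℝ) ^ l * d') := by
            gcongr
            linarith
        _ = 14 * 9 / d' * l * (1 / (2 : ℝ) ^ l) := by field_simp
        _ ≤ 14 * 9 / d' * l * Real.exp (-(1 / 2 * (l : ℝ))) := by gcongr
        _ ≤ η / 2 := f5
    have g2 : 36 / ((2 : ℝ) ^ l * d') ≤ η / 2 := by
      calc 36 / ((2 : ℝ) ^ l * d') = 36 / d' * (1 / (2 : ℝ) ^ l) := by field_simp
        _ ≤ 36 / d' * Real.exp (-(1 / 2 * (l : ℝ))) := by gcongr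
        _ ≤ η / 2 := f6
    linarith

end Pool.Agent.H24.FD
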